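import Pool.Agent.Lib.MP_47b33c_an.Main

set_option autoImplicit false

open MeasureTheory Metric Set Filter Topology
open Pool.Agent.Lib.MP_47b33c_an

namespace Pool.Agent.Results.MP_47b33c_an.PrescribedBlowups

/-- Every compact connected set of hyperplanes through the origin is the set of all blow-ups, at a
boundary point, of the common boundary of two complementary NTA domains whose harmonic measures are
mutually absolutely continuous with a density whose logarithm is continuous. -/
theorem result (n : ℕ) (hn : 2 ≤ n) (C : Set (Hyp n)) (hC : IsCompact C) (hC' : IsConnected C) :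
    ∃ (Ωp Ωm : Set (EE n)) (A B : EE n) (ωp ωm : Measure (EE n)) (Q : EE n),
      IsNTA Ωp ∧ IsNTA Ωm ∧ Ωm = (closure Ωp)ᶜ ∧ frontier Ωm = frontier Ωp ∧ A ∈ Ωp ∧ B ∈ Ωm ∧
      IsHarmonicMeasure Ωp A ωp ∧ IsHarmonicMeasure Ωm B ωm ∧
      LogContDensity (frontier Ωp) ωp ωm ∧ Q ∈ frontier Ωp ∧
      Tan (frontier Ωp) Q = (fun H : Hyp n => (H.1 : Set (EE n))) '' C :=
  main n hn C hC hC'

end Pool.Agent.Results.MP_47b33c_an.PrescribedBlowups
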